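import Pool.Agent.H406.GLF.Main

/-! Dirichlet densities from pairs of Rankin-Selberg `L`-functions: products of two linear forms in the traces of
several representations. -/

set_option autoImplicit false

open NumberField IsDedekindDomain Filter Topology
open Pool.Agent.H921R2.TatePole (Lam Bdd)
open Pool.Agent.H406.GLF

namespace Pool.Agent.Hp428.FM

variable {K : Type} [Field K] [NumberField K] {S : Finset (HeightOneSpectrum (𝓞 K))}

/-- the term `f g / k · (N v)^{-kσ}` -/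
noncomputable def term (f g : Places S × ℕ → ℝ) (σ : ℝ) (x : Places S × ℕ) : ℝ :=
  f x * g x / ((x.2 : ℝ) + 1) * (ww σ x.1) ^ (x.2 + 1)

/-- `∑ f g / k · (N v)^{-kσ} = δ log (1 / (σ - 1)) + O(1)` -/
def Corr (f g : Places S × ℕ → ℝ) (δ : ℝ) : Prop :=
  (∀ σ : ℝ, 1 < σ → Summable (term f g σ)) ∧ Bdd fun σ => ∑' x, term f g σ x - δ * Lam σ

theorem term_comm (f g : Places S × ℕ → ℝ) (σ : ℝ) (x : Places S × ℕ) : term f g σ x = term g f σ x := by
  unfold term
  rw [mul_comm (f x)]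

theorem Corr.symm {f g : Places S × ℕ → ℝ} {δ : ℝ} (h : Corr f g δ) : Corr g f δ := by
  refine ⟨fun σ hσ => (h.1 σ hσ).congr fun x => term_comm f g σ x, ?_⟩
  obtain ⟨C, hC⟩ := h.2
  refine ⟨C, ?_⟩
  filter_upwards [hC] with σ h1
  rw [tsum_congr fun x => term_comm g f σ x]
  exact h1

/-- the trivial representation -/
theorem corr_one : Corr (S := S) (fun _ => 1) (fun _ => 1) 1 := by
  have hinj2 : Function.Injective fun x : Places S × ℕ => ((x.1, x.2 + 1) : Places S × ℕ) := by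
    rintro ⟨v, k⟩ ⟨w, l⟩ h
    simp only [Prod.mk.injEq, add_left_inj] at h
    rw [Prod.mk.injEq]
    exact h
  have hinj : Function.Injective fun v : Places S => ((v, 0) : Places S × ℕ) := fun v w hvw => (Prod.ext_iff.1 hvw).1
  have hS : ∀ σ : ℝ, 1 < σ → Summable (term (S := S) (fun _ => 1) (fun _ => 1) σ) := by
    intro σ hσ
    refine Summable.of_nonneg_of_le (fun x => ?_) (fun x => ?_) (geo_summable (S := S) hσ)
    · unfold term
      have := ww_pos σ x.1
      positivity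
    · unfold term
      have h1 := ww_pos σ x.1
      have h2 : 0 < (ww σ x.1) ^ (x.2 + 1) := by positivity
      have h3 : (1 : ℝ) * 1 / ((x.2 : ℝ) + 1) ≤ 1 := by
        rw [div_le_one (by positivity)]
        linarith [(Nat.cast_nonneg x.2 : (0 : ℝ) ≤ (x.2 : ℝ))]
      nlinarith
  refine ⟨hS, ?_⟩
  obtain ⟨C1, hC1⟩ := ww_bdd (S := S)
  refine ⟨C1 + ∑' x : Places S × ℕ, (ww (3 / 4) x.1) ^ (x.2 + 2), ?_⟩
  filter_upwards [hC1, self_mem_nhdsWithin] with σ h1 h2
  have hσ : (1 : ℝ) < σ := h2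
  have hS1 := hS σ hσ
  have hfib := hS1.prod_factor
  have hS2 := hS1.comp_injective hinj2
  have hcomp : Summable fun v : Places S => term (S := S) (fun _ => 1) (fun _ => 1) σ (v, 0) :=
    hS1.comp_injective hinj
  have htl : Summable fun v : Places S => ∑' k : ℕ, term (S := S) (fun _ => 1) (fun _ => 1) σ (v, k + 1) :=
    hS2.prod
  have e1 : ∑' x, term (S := S) (fun _ => 1) (fun _ => 1) σ x = ∑' v : Places S, ww σ v +
      ∑' x : Places S × ℕ, term (fun _ => 1) (fun _ => 1) σ (x.1, x.2 + 1) := by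
    rw [hS1.tsum_prod]
    have e2 : ∀ v : Places S, ∑' k : ℕ, term (S := S) (fun _ => 1) (fun _ => 1) σ (v, k) =
        term (fun _ => 1) (fun _ => 1) σ (v, 0) + ∑' k : ℕ, term (fun _ => 1) (fun _ => 1) σ (v, k + 1) :=
      fun v => (hfib v).tsum_eq_zero_add
    rw [tsum_congr e2, hcomp.tsum_add htl]
    congr 1
    · refine tsum_congr fun v => ?_
      unfold term
      simp
    · exact hS2.tsum_prod.symm
  have h3 : |∑' x : Places S × ℕ, term (S := S) (fun _ => 1) (fun _ => 1) σ (x.1, x.2 + 1)| ≤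
      ∑' x : Places S × ℕ, (ww (3 / 4) x.1) ^ (x.2 + 2) := by
    rw [← Real.norm_eq_abs]
    refine tsum_of_norm_bounded (tail_summable (S := S)).hasSum fun x => ?_
    unfold term
    have hw := ww_pos σ x.1
    have hw' := ww_pos (3 / 4) x.1
    rw [Real.norm_of_nonneg (by positivity)]
    have hle : ww σ x.1 ≤ ww (3 / 4) x.1 := by
      unfold ww
      have hn : (1 : ℝ) ≤ (Nm x.1.1 : ℝ) := by
        have := two_le x.1.1
        exact_mod_cast (by omega : 1 ≤ Nm x.1.1)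
      exact Real.rpow_le_rpow_of_exponent_le hn (by linarith)
    have h4 : (ww σ x.1) ^ (x.2 + 1 + 1) ≤ (ww (3 / 4) x.1) ^ (x.2 + 2) := pow_le_pow_left₀ hw.le hle _
    have h5 : (1 : ℝ) * 1 / (((x.2 + 1 : ℕ) : ℝ) + 1) ≤ 1 := by
      rw [div_le_one (by positivity)]
      push_cast
      linarith [(Nat.cast_nonneg x.2 : (0 : ℝ) ≤ (x.2 : ℝ))]
    have h6 : 0 < (ww σ x.1) ^ (x.2 + 1 + 1) := by positivity
    calc (1 : ℝ) * 1 / (((x.2 + 1 : ℕ) : ℝ) + 1) * (ww σ x.1) ^ (x.2 + 1 + 1) ≤ 1 * (ww σ x.1) ^ (x.2 + 1 + 1) :=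
          mul_le_mul_of_nonneg_right h5 h6.le
      _ ≤ _ := by rw [one_mul]; exact h4
  rw [e1, one_mul]
  have e3 : ∑' v : Places S, ww σ v + ∑' x : Places S × ℕ, term (S := S) (fun _ => 1) (fun _ => 1) σ (x.1, x.2 + 1) -
      Lam σ = (∑' v : Places S, ww σ v - Lam σ) +
      ∑' x : Places S × ℕ, term (S := S) (fun _ => 1) (fun _ => 1) σ (x.1, x.2 + 1) := by ring
  rw [e3]
  exact (abs_add_le _ _).trans (add_le_add h1 h3)

theorem bdd_finset {ι : Type*} (J : Finset ι) {f : ι → ℝ → ℝ} (h : ∀ i ∈ J, Bdd (f i)) :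
    Bdd fun σ => ∑ i ∈ J, f i σ := by
  classical
  induction J using Finset.induction_on with
  | empty => exact ⟨0, by simp⟩
  | insert a s ha ih =>
    have h1 := (h a (Finset.mem_insert_self a s)).add (ih fun i hi => h i (Finset.mem_insert_of_mem hi))
    refine h1.congr fun σ _ => ?_
    rw [Finset.sum_insert ha]

theorem bdd_mul {f : ℝ → ℝ} (h : Bdd f) (c : ℝ) : Bdd fun σ => c * f σ := by
  obtain ⟨C, hC⟩ := h
  refine ⟨|c| * C, ?_⟩
  filter_upwards [hC] with σ h1
  rw [abs_mul]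
  exact mul_le_mul_of_nonneg_left h1 (abs_nonneg _)

/-- **Products of two linear forms.** -/
theorem form_upper {I : Type*} [DecidableEq I] (J : Finset I) {T : I → Places S × ℕ → ℝ}
    (hT : ∀ i ∈ J, ∀ j ∈ J, Corr (T i) (T j) (if i = j then 1 else 0)) (u w : I → ℝ)
    (hpos : ∀ x, 0 ≤ (∑ i ∈ J, u i * T i x) * ∑ i ∈ J, w i * T i x) {A : ℝ} (hA : 0 < A) {Z : Set (Places S)}
    (hZ : ∀ v ∈ Z, A ≤ (∑ i ∈ J, u i * T i (v, 0)) * ∑ i ∈ J, w i * T i (v, 0)) :
    UpperLE Z ((∑ i ∈ J, u i * w i) / A) := by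
  have hinj : Function.Injective fun v : Places S => ((v, 0) : Places S × ℕ) := fun v w hvw => (Prod.ext_iff.1 hvw).1
  set P : Places S × ℕ → ℝ := fun x => (∑ i ∈ J, u i * T i x) * ∑ i ∈ J, w i * T i x with hP
  set Q : ℝ → Places S × ℕ → ℝ := fun σ x => P x / ((x.2 : ℝ) + 1) * (ww σ x.1) ^ (x.2 + 1) with hQ
  have eQ : ∀ σ x, Q σ x = ∑ i ∈ J, ∑ j ∈ J, (u i * w j) * term (T i) (T j) σ x := by
    intro σ x
    simp only [hQ, hP]
    rw [Finset.sum_mul_sum, Finset.sum_div, Finset.sum_mul]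
    refine Finset.sum_congr rfl fun i _ => ?_
    rw [Finset.sum_div, Finset.sum_mul]
    refine Finset.sum_congr rfl fun j _ => ?_
    unfold term
    ring
  have hQ0 : ∀ σ x, 0 ≤ Q σ x := by
    intro σ x
    have h1 := ww_pos σ x.1
    have h2 := hpos x
    simp only [hQ, hP]
    positivity
  have hQs : ∀ σ : ℝ, 1 < σ → Summable (Q σ) := by
    intro σ hσ
    have h1 : Summable fun x => ∑ i ∈ J, ∑ j ∈ J, (u i * w j) * term (T i) (T j) σ x :=
      summable_sum fun i hi => summable_sum fun j hj => ((hT i hi j hj).1 σ hσ).mul_left _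
    exact h1.congr fun x => (eQ σ x).symm
  have hsum : ∀ σ : ℝ, 1 < σ → ∑' x, Q σ x = ∑ i ∈ J, ∑ j ∈ J, (u i * w j) * ∑' x, term (T i) (T j) σ x := by
    intro σ hσ
    rw [tsum_congr (eQ σ)]
    rw [Summable.tsum_finsetSum fun i hi => summable_sum fun j hj => ((hT i hi j hj).1 σ hσ).mul_left _]
    refine Finset.sum_congr rfl fun i hi => ?_
    rw [Summable.tsum_finsetSum fun j hj => ((hT i hi j hj).1 σ hσ).mul_left _]
    refine Finset.sum_congr rfl fun j hj => ?_
    rw [tsum_mul_left]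
  have hB : Bdd fun σ => ∑ i ∈ J, ∑ j ∈ J, (u i * w j) *
      (∑' x, term (T i) (T j) σ x - (if i = j then (1 : ℝ) else 0) * Lam σ) :=
    bdd_finset J fun i hi => bdd_finset J fun j hj => bdd_mul (hT i hi j hj).2 _
  obtain ⟨C, hC⟩ := hB
  have he : ∀ σ : ℝ, ∀ v : Places S, Q σ (v, 0) = P (v, 0) * ww σ v := by
    intro σ v
    simp only [hQ]
    simp
  refine cheb (P := fun v => P (v, 0)) (fun v => hpos _) hA (fun σ hσ => ?_) ⟨C, ?_⟩ hZ
  · exact ((hQs σ hσ).comp_injective hinj).congr fun v => he σ v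
  · filter_upwards [hC, self_mem_nhdsWithin] with σ h1 h2
    have hσ : (1 : ℝ) < σ := h2
    have h4 : ∑' v : Places S, P (v, 0) * ww σ v ≤ ∑' x, Q σ x := by
      rw [← tsum_congr (he σ)]
      exact Summable.tsum_le_tsum_of_inj (fun v : Places S => ((v, 0) : Places S × ℕ)) hinj
        (fun x _ => hQ0 σ x) (fun v => le_rfl) ((hQs σ hσ).comp_injective hinj) (hQs σ hσ)
    have h5 : ∑ i ∈ J, ∑ j ∈ J, (u i * w j) *
        (∑' x, term (T i) (T j) σ x - (if i = j then (1 : ℝ) else 0) * Lam σ) =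
        ∑' x, Q σ x - (∑ i ∈ J, u i * w i) * Lam σ := by
      rw [hsum σ hσ, Finset.sum_mul, ← Finset.sum_sub_distrib]
      refine Finset.sum_congr rfl fun i hi => ?_
      have h6 : ∑ j ∈ J, (u i * w j) * ((if i = j then (1 : ℝ) else 0) * Lam σ) = u i * w i * Lam σ := by
        rw [Finset.sum_eq_single i]
        · simp
        · intro j _ hj
          rw [if_neg (Ne.symm hj)]
          ring
        · intro h
          exact absurd hi h
      rw [← h6, ← Finset.sum_sub_distrib]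
      refine Finset.sum_congr rfl fun j hj => ?_
      ring
    rw [h5] at h1
    have h6 := (abs_le.1 h1).2
    linarith

end Pool.Agent.Hp428.FM
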