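import Pool.Agent.Hp428.FM.Abs

/-! Unitary parameters of `GL(2)`: the traces of the adjoint square and of the twisted symmetric fourth power. -/

set_option autoImplicit false

open NumberField IsDedekindDomain Filter Topology
open Pool.Agent.H921R2.TatePole (Lam Bdd)
open Pool.Agent.H406.GLF

namespace Pool.Agent.Hp428.FM

/-- the ratio of the two parameters -/
noncomputable def ratio (a : Fin 2 → ℂ) : ℂ := a 0 / a 1

/-- the parameters of the adjoint square -/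
noncomputable def Ad (a : Fin 2 → ℂ) : Fin 3 → ℂ := ![ratio a, 1, (ratio a)⁻¹]

/-- the parameters of the symmetric fourth power, twisted by the inverse square of the central character -/
noncomputable def A4 (a : Fin 2 → ℂ) : Fin 5 → ℂ := ![ratio a ^ 2, ratio a, 1, (ratio a)⁻¹, (ratio a)⁻¹ ^ 2]

/-- some parameter is larger than one and at least `r` in absolute value -/
def Large (r : ℝ) (a : Fin 2 → ℂ) : Prop := ∃ i, 1 < ‖a i‖ ∧ r ≤ ‖a i‖

theorem perm2 (τ : Equiv.Perm (Fin 2)) : (τ 0 = 0 ∧ τ 1 = 1) ∨ (τ 0 = 1 ∧ τ 1 = 0) := by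
  revert τ
  decide

theorem cases {a : Fin 2 → ℂ} (h : Unitary a) : (‖a 0‖ = 1 ∧ ‖a 1‖ = 1) ∨
    (ratio a = ((‖a 0‖ ^ 2 : ℝ) : ℂ) ∧ ‖a 1‖ = ‖a 0‖⁻¹) := by
  obtain ⟨h0, τ, hτ⟩ := h
  rcases perm2 τ with ⟨h1, h2⟩ | ⟨h1, h2⟩
  · left
    have key : ∀ i, τ i = i → ‖a i‖ = 1 := by
      intro i hi
      have h3 := hτ i
      rw [hi] at h3
      have h4 : ‖a i‖ = ‖a i‖⁻¹ := by
        nth_rewrite 1 [h3]
        rw [norm_inv, RCLike.norm_conj]
      have hp : 0 < ‖a i‖ := norm_pos_iff.2 (h0 i)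
      have h5 : ‖a i‖ * ‖a i‖ = 1 := by
        nth_rewrite 1 [h4]
        exact inv_mul_cancel₀ hp.ne'
      nlinarith
    exact ⟨key 0 h1, key 1 h2⟩
  · right
    have h3 := hτ 0
    rw [h1] at h3
    have hp : 0 < ‖a 0‖ := norm_pos_iff.2 (h0 0)
    constructor
    · unfold ratio
      rw [h3, div_inv_eq_mul, Complex.mul_conj, Complex.normSq_eq_norm_sq]
    · rw [h3, norm_inv, RCLike.norm_conj]

/-- `z ^ t + z ^ (-t)` -/
noncomputable def yy (a : Fin 2 → ℂ) (t : ℕ) : ℝ := (ratio a ^ t + (ratio a)⁻¹ ^ t).re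

theorem ratio_ne {a : Fin 2 → ℂ} (h : Unitary a) : ratio a ≠ 0 := div_ne_zero (h.1 0) (h.1 1)

theorem yy_eq {a : Fin 2 → ℂ} (h : Unitary a) (t : ℕ) : ratio a ^ t + (ratio a)⁻¹ ^ t = (yy a t : ℂ) := by
  have h0 := ratio_ne h
  rcases cases h with ⟨h1, h2⟩ | ⟨h1, h2⟩
  · have hn : ‖ratio a‖ = 1 := by unfold ratio; rw [norm_div, h1, h2, div_one]
    have hc : (ratio a)⁻¹ = (starRingEnd ℂ) (ratio a) := Complex.inv_eq_conj hn
    unfold yy
    rw [hc, ← map_pow, Complex.add_conj]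
    rw [Complex.ofReal_re]
  · unfold yy
    rw [h1]
    rw [← Complex.ofReal_inv, ← Complex.ofReal_pow, ← Complex.ofReal_pow, ← Complex.ofReal_add, Complex.ofReal_re]

theorem sum_Ad {a : Fin 2 → ℂ} (h : Unitary a) (t : ℕ) : ∑ i, Ad a i ^ t = ((1 + yy a t : ℝ) : ℂ) := by
  simp only [Ad, Fin.sum_univ_succ, Fin.sum_univ_zero]
  simp only [Matrix.cons_val_zero, Matrix.cons_val_succ, one_pow, add_zero]
  have := yy_eq h t
  push_cast
  rw [← this]
  ring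

theorem sum_A4 {a : Fin 2 → ℂ} (h : Unitary a) (t : ℕ) :
    ∑ i, A4 a i ^ t = (((1 + yy a t) ^ 2 - (1 + yy a t) - 1 : ℝ) : ℂ) := by
  have h0 := ratio_ne h
  simp only [A4, Fin.sum_univ_succ, Fin.sum_univ_zero]
  simp only [Matrix.cons_val_zero, Matrix.cons_val_succ, one_pow, add_zero]
  have h1 := yy_eq h t
  have h2 : ratio a ^ t * (ratio a)⁻¹ ^ t = 1 := by rw [← mul_pow, mul_inv_cancel₀ h0, one_pow]
  have e1 : (ratio a ^ 2) ^ t = (ratio a ^ t) ^ 2 := by rw [← pow_mul, ← pow_mul, mul_comm]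
  have e2 : ((ratio a)⁻¹ ^ 2) ^ t = ((ratio a)⁻¹ ^ t) ^ 2 := by rw [← pow_mul, ← pow_mul, mul_comm]
  rw [e1, e2]
  push_cast
  rw [← h1]
  linear_combination (-2) * h2

theorem yy_large {a : Fin 2 → ℂ} (h : Unitary a) {r : ℝ} (hr : 1 ≤ r) (hl : Large r a) :
    r ^ 2 + (r ^ 2)⁻¹ ≤ yy a 1 := by
  have h00 := h.1 0
  have hp : 0 < ‖a 0‖ := norm_pos_iff.2 h00
  obtain ⟨i, hi1, hir⟩ := hl
  rcases cases h with ⟨h1, h2⟩ | ⟨h1, h2⟩
  · exfalso
    fin_cases i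
    · have : ‖a 0‖ = 1 := h1
      have : 1 < ‖a 0‖ := hi1
      linarith
    · have : ‖a 1‖ = 1 := h2
      have : 1 < ‖a 1‖ := hi1
      linarith
  · have hy : yy a 1 = ‖a 0‖ ^ 2 + (‖a 0‖ ^ 2)⁻¹ := by
      unfold yy
      rw [h1, pow_one, pow_one, ← Complex.ofReal_inv, ← Complex.ofReal_add, Complex.ofReal_re]
    rw [hy]
    have hr2 : (1 : ℝ) ≤ r ^ 2 := one_le_pow₀ hr
    fin_cases i
    · have h3 : r ≤ ‖a 0‖ := hir
      exact add_inv_mono hr2 (pow_le_pow_left₀ (by linarith) h3 2)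
    · have h3 : r ≤ ‖a 1‖ := hir
      rw [h2] at h3
      have h4 : r ^ 2 ≤ (‖a 0‖ ^ 2)⁻¹ := by
        rw [← inv_pow]
        exact pow_le_pow_left₀ (by linarith) h3 2
      have h5 := add_inv_mono hr2 h4
      rw [inv_inv, add_comm ((‖a 0‖ ^ 2)⁻¹)] at h5
      exact h5

variable {K : Type} [Field K] [NumberField K] {S : Finset (HeightOneSpectrum (𝓞 K))}

/-- the term of the logarithm of the partial Rankin-Selberg `L`-function of a pair -/
noncomputable def pairTerm {m n : ℕ} (a : Places S → Fin m → ℂ) (b : Places S → Fin n → ℂ) (σ : ℝ)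
    (x : Places S × ℕ) : ℂ :=
  (∑ i, a x.1 i ^ (x.2 + 1)) * (starRingEnd ℂ) (∑ i, b x.1 i ^ (x.2 + 1)) / ((x.2 : ℂ) + 1) *
    ((((Nm x.1.1 : ℝ) ^ (-σ)) ^ (x.2 + 1) : ℝ) : ℂ)

/-- `log L^S(σ, π × π'~)` -/
noncomputable def logPair {m n : ℕ} (a : Places S → Fin m → ℂ) (b : Places S → Fin n → ℂ) (σ : ℝ) : ℂ :=
  ∑' x : Places S × ℕ, pairTerm a b σ x

/-- the partial Rankin-Selberg `L`-function converges for `σ > 1` and has a pole of order `p` at `1` -/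
def PairPole {m n : ℕ} (a : Places S → Fin m → ℂ) (b : Places S → Fin n → ℂ) (p : ℕ) : Prop :=
  (∀ σ : ℝ, 1 < σ → Summable (pairTerm a b σ)) ∧
  ∃ c : ℂ, c ≠ 0 ∧ Tendsto (fun σ : ℝ => ((σ - 1 : ℝ) : ℂ) ^ p * Complex.exp (logPair a b σ)) (𝓝[>] 1) (𝓝 c)

theorem corr_of {m n : ℕ} {a : Places S → Fin m → ℂ} {b : Places S → Fin n → ℂ} {p : ℕ} (h : PairPole a b p)
    {f g : Places S × ℕ → ℝ} (hf : ∀ x : Places S × ℕ, ∑ i, a x.1 i ^ (x.2 + 1) = (f x : ℂ))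
    (hg : ∀ x : Places S × ℕ, ∑ i, b x.1 i ^ (x.2 + 1) = (g x : ℂ)) : Corr f g p := by
  obtain ⟨hs, c, hc, ht⟩ := h
  have e : ∀ σ x, pairTerm a b σ x = ((term f g σ x : ℝ) : ℂ) := by
    intro σ x
    unfold pairTerm term
    rw [hf, hg, Complex.conj_ofReal]
    unfold ww
    push_cast
    ring
  have hs' : ∀ σ : ℝ, 1 < σ → Summable (term f g σ) := by
    intro σ hσ
    have h1 := hs σ hσ
    have h2 : Summable fun x => ((term f g σ x : ℝ) : ℂ) := h1.congr fun x => e σ x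
    exact Complex.summable_ofReal.1 h2
  refine ⟨hs', ?_⟩
  have hlog : ∀ σ : ℝ, logPair a b σ = ((∑' x, term f g σ x : ℝ) : ℂ) := by
    intro σ
    unfold logPair
    rw [tsum_congr (e σ), ← Complex.ofReal_tsum]
  have hcn : 0 < ‖c‖ := norm_pos_iff.2 hc
  have hl := (ht.norm).log hcn.ne'
  refine (Bdd.of_tendsto hl).congr fun σ hσ => ?_
  have h0 : 0 < σ - 1 := by linarith
  rw [norm_mul, norm_pow, Complex.norm_real, Real.norm_of_nonneg h0.le, Complex.norm_exp, hlog, Complex.ofReal_re,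
    Real.log_mul (by positivity) (Real.exp_pos _).ne', Real.log_exp, Real.log_pow]
  have h3 : Lam σ = - Real.log (σ - 1) := by
    unfold Lam
    rw [one_div, Real.log_inv]
  rw [h3]
  ring

end Pool.Agent.Hp428.FM
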