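import Pool.Agent.Hp428.FM.Loc

/-! Several cuspidal representations of `GL(2)` at once: how many of them are nontempered at a place. -/

set_option autoImplicit false

open NumberField IsDedekindDomain Filter Topology
open Pool.Agent.H921R2.TatePole (Lam Bdd)
open Pool.Agent.H406.GLF

namespace Pool.Agent.Hp428.FM

variable {K : Type} [Field K] [NumberField K] {S : Finset (HeightOneSpectrum (𝓞 K))}

/-- the trivial representation -/
def Triv : Places S → Fin 1 → ℂ := fun _ _ => 1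

/-- what is used of the representations -/
structure Family {ι : Type} (α : ι → Places S → Fin 2 → ℂ) : Prop where
  unitary : ∀ i v, Unitary (α i v)
  ad_one : ∀ i, PairPole (fun v => Ad (α i v)) (Triv (S := S)) 0
  a4_one : ∀ i, PairPole (fun v => A4 (α i v)) (Triv (S := S)) 0
  ad_self : ∀ i, PairPole (fun v => Ad (α i v)) (fun v => Ad (α i v)) 1
  a4_self : ∀ i, PairPole (fun v => A4 (α i v)) (fun v => A4 (α i v)) 1
  ad_ad : ∀ i j, i ≠ j → PairPole (fun v => Ad (α i v)) (fun v => Ad (α j v)) 0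
  a4_a4 : ∀ i j, i ≠ j → PairPole (fun v => A4 (α i v)) (fun v => A4 (α j v)) 0
  ad_a4 : ∀ i j, PairPole (fun v => Ad (α i v)) (fun v => A4 (α j v)) 0

/-- the trace of the adjoint square -/
noncomputable def U2 (a : Places S → Fin 2 → ℂ) (x : Places S × ℕ) : ℝ := 1 + yy (a x.1) (x.2 + 1)

/-- the trace of the twisted symmetric fourth power -/
noncomputable def U4 (a : Places S → Fin 2 → ℂ) (x : Places S × ℕ) : ℝ := U2 a x ^ 2 - U2 a x - 1

/-- all the traces -/
noncomputable def TT {ι : Type} (α : ι → Places S → Fin 2 → ℂ) : Option (ι × Bool) → Places S × ℕ → ℝ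
  | none => fun _ => 1
  | some (i, false) => U2 (α i)
  | some (i, true) => U4 (α i)

theorem corr_cast {f g : Places S × ℕ → ℝ} {δ ε : ℝ} (h : Corr f g δ) (e : δ = ε) : Corr f g ε := e ▸ h

theorem corr_all {ι : Type} [DecidableEq ι] {α : ι → Places S → Fin 2 → ℂ} (h : Family α) :
    ∀ a b : Option (ι × Bool), Corr (TT α a) (TT α b) (if a = b then 1 else 0) := by
  have h1 : ∀ x : Places S × ℕ, ∑ i, (Triv (S := S)) x.1 i ^ (x.2 + 1) = ((1 : ℝ) : ℂ) := by
    intro x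
    simp [Triv]
  have h2 : ∀ i, ∀ x : Places S × ℕ, ∑ j, (fun v => Ad (α i v)) x.1 j ^ (x.2 + 1) = ((U2 (α i) x : ℝ) : ℂ) :=
    fun i x => sum_Ad (h.unitary i x.1) _
  have h4 : ∀ i, ∀ x : Places S × ℕ, ∑ j, (fun v => A4 (α i v)) x.1 j ^ (x.2 + 1) = ((U4 (α i) x : ℝ) : ℂ) :=
    fun i x => sum_A4 (h.unitary i x.1) _
  rintro (_ | ⟨i, _ | _⟩) (_ | ⟨j, _ | _⟩)
  · refine corr_cast corr_one (by simp)
  · exact corr_cast (corr_of (h.ad_one j) (h2 j) h1).symm (by simp)
  · exact corr_cast (corr_of (h.a4_one j) (h4 j) h1).symm (by simp)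
  · exact corr_cast (corr_of (h.ad_one i) (h2 i) h1) (by simp)
  · by_cases hij : i = j
    · subst hij
      exact corr_cast (corr_of (h.ad_self i) (h2 i) (h2 i)) (by simp)
    · exact corr_cast (corr_of (h.ad_ad i j hij) (h2 i) (h2 j)) (by simp [hij])
  · exact corr_cast (corr_of (h.ad_a4 i j) (h2 i) (h4 j)) (by simp)
  · exact corr_cast (corr_of (h.a4_one i) (h4 i) h1) (by simp)
  · exact corr_cast (corr_of (h.ad_a4 j i) (h2 j) (h4 i)).symm (by simp)
  · by_cases hij : i = j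
    · subst hij
      exact corr_cast (corr_of (h.a4_self i) (h4 i) (h4 i)) (by simp)
    · exact corr_cast (corr_of (h.a4_a4 i j hij) (h4 i) (h4 j)) (by simp [hij])

/-- coefficients -/
def cf {ι : Type} (c : ℝ) (a b : ι → ℝ) : Option (ι × Bool) → ℝ
  | none => c
  | some (i, false) => a i
  | some (i, true) => b i

/-- the index set -/
def idx {ι : Type} (J : Finset ι) : Finset (Option (ι × Bool)) :=
  Finset.insertNone (J ×ˢ (Finset.univ : Finset Bool))

theorem sum_idx {ι : Type} (J : Finset ι) (f : Option (ι × Bool) → ℝ) :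
    ∑ a ∈ idx J, f a = f none + ∑ i ∈ J, (f (some (i, false)) + f (some (i, true))) := by
  unfold idx
  rw [Finset.sum_insertNone, Finset.sum_product]
  congr 1
  refine Finset.sum_congr rfl fun i _ => ?_
  rw [Fintype.sum_bool, add_comm]

theorem sum_cf {ι : Type} (J : Finset ι) (α : ι → Places S → Fin 2 → ℂ) (c : ℝ) (a b : ι → ℝ) (x : Places S × ℕ) :
    ∑ p ∈ idx J, cf c a b p * TT α p x = c + ∑ i ∈ J, (a i * U2 (α i) x + b i * U4 (α i) x) := by
  rw [sum_idx]
  simp only [cf, TT, mul_one]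

theorem sum_cfcf {ι : Type} (J : Finset ι) (c c' : ℝ) (a b a' b' : ι → ℝ) :
    ∑ p ∈ idx J, cf c a b p * cf c' a' b' p = c * c' + ∑ i ∈ J, (a i * a' i + b i * b' i) := by
  rw [sum_idx]
  simp only [cf]

theorem large_U2 {a : Places S → Fin 2 → ℂ} (h : ∀ v, Unitary (a v)) {r : ℝ} (hr : 1 ≤ r) {v : Places S}
    (hl : Large r (a v)) : r ^ 2 + (r ^ 2)⁻¹ + 1 ≤ U2 a (v, 0) := by
  have h1 := yy_large (h v) hr hl
  unfold U2
  simp only [zero_add]
  linarith

/-- `(1 + 2 l) U₂ + U₄ = (U₂ + l)² - (1 + l²)` -/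
theorem q_eq' (a : Places S → Fin 2 → ℂ) (l : ℝ) (x : Places S × ℕ) :
    (1 + 2 * l) * U2 a x + 1 * U4 a x = (U2 a x + l) ^ 2 - (1 + l ^ 2) := by
  unfold U4
  ring

/-- **At least `j` of the representations.** -/
theorem many_upper {ι : Type} {α : ι → Places S → Fin 2 → ℂ} (h : Family α) (J : Finset ι) {r : ℝ} (hr : 1 ≤ r)
    {s l : ℝ} (hs : s = r ^ 2 + (r ^ 2)⁻¹ + 1) (hl : 0 ≤ s + l)
    {j : ℕ} (hj : J.card * (1 + l ^ 2) < j * (s + l) ^ 2) {Z : Set (Places S)}
    (hZ : ∀ v ∈ Z, ∃ I ⊆ J, j ≤ I.card ∧ ∀ i ∈ I, Large r (α i v)) :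
    UpperLE Z (J.card * (1 + (1 + 2 * l) ^ 2) /
      (J.card * (1 + (1 + 2 * l) ^ 2) + (j * (s + l) ^ 2 - J.card * (1 + l ^ 2)) ^ 2)) := by
  classical
  set V := 1 + (1 + 2 * l) ^ 2 with hV
  have hV0 : 0 < V := by positivity
  set k : ℝ := (J.card : ℝ) with hk
  have hk0 : 0 ≤ k := Nat.cast_nonneg _
  set t := j * (s + l) ^ 2 - k * (1 + l ^ 2) with ht
  have ht0 : 0 < t := by linarith
  set c := k * V / t with hc
  have hc0 : 0 ≤ c := by positivity
  have key := form_upper (idx J) (T := TT α) (fun a _ b _ => corr_all h a b)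
    (cf c (fun _ => 1 + 2 * l) (fun _ => 1)) (cf c (fun _ => 1 + 2 * l) (fun _ => 1))
    (fun x => mul_self_nonneg _) (A := (c + t) ^ 2) (by positivity)
    (Z := Z) (fun v hv => by
      rw [sum_cf, ← pow_two]
      refine pow_le_pow_left₀ (by linarith) ?_ 2
      obtain ⟨I, hIJ, hjI, hI⟩ := hZ v hv
      have h1 : ∑ i ∈ J, ((if i ∈ I then (s + l) ^ 2 else 0) - (1 + l ^ 2)) ≤
          ∑ i ∈ J, ((1 + 2 * l) * U2 (α i) (v, 0) + 1 * U4 (α i) (v, 0)) := by
        refine Finset.sum_le_sum fun i hi => ?_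
        rw [q_eq']
        refine sub_le_sub_right ?_ _
        by_cases hiI : i ∈ I
        · rw [if_pos hiI]
          refine pow_le_pow_left₀ hl ?_ 2
          have h2 := large_U2 (h.unitary i) hr (hI i hiI)
          rw [← hs] at h2
          linarith
        · rw [if_neg hiI]
          exact sq_nonneg _
      rw [Finset.sum_sub_distrib, Finset.sum_ite_mem, Finset.inter_eq_right.2 hIJ, Finset.sum_const, Finset.sum_const,
        nsmul_eq_mul, nsmul_eq_mul, ← hk] at h1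
      have h3 : (j : ℝ) ≤ (I.card : ℝ) := by exact_mod_cast hjI
      have h4 : (j : ℝ) * (s + l) ^ 2 ≤ I.card * (s + l) ^ 2 := mul_le_mul_of_nonneg_right h3 (by positivity)
      linarith)
  rw [sum_cfcf] at key
  refine key.mono (le_of_eq ?_)
  rw [Finset.sum_const, nsmul_eq_mul, ← hk]
  have e : (1 + 2 * l) * (1 + 2 * l) + 1 * 1 = V := by rw [hV]; ring
  rw [e]
  have h1 : c * t = k * V := by rw [hc]; field_simp
  have h2 : 0 < c + t := by linarith
  have h3 : 0 < k * V + t ^ 2 := by positivity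
  rw [div_eq_div_iff (by positivity) h3.ne']
  rw [← h1]
  ring

/-- `q = (s² + 2 s) U₂ + s² U₄ = (s U₂ + 1)² - (s² + 1)` -/
theorem q_eq (a : Places S → Fin 2 → ℂ) (s : ℝ) (x : Places S × ℕ) :
    (s ^ 2 + 2 * s) * U2 a x + s ^ 2 * U4 a x = (s * U2 a x + 1) ^ 2 - (s ^ 2 + 1) := by
  unfold U4
  ring

/-- a unitary parameter which is not large is tempered -/
theorem tempered_of {a : Fin 2 → ℂ} (h : Unitary a) (hl : ¬ Large 1 a) : ∀ i, ‖a i‖ = 1 := by
  by_contra h1
  obtain ⟨i, hi⟩ := exists_large h h1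
  exact hl ⟨i, hi, hi.le⟩

/-- **Infinite families.** -/
theorem infinite_lower {ι : Type} [Infinite ι] {α : ι → Places S → Fin 2 → ℂ} (h : Family α) (m : ℕ) {ε : ℝ}
    (hε : 0 < ε) :
    LowerGE {v : Places S | ∃ I : Finset ι, m ≤ I.card ∧ ∀ i ∈ I, ∀ a, ‖α i v a‖ = 1} (1 - ε) := by
  classical
  obtain ⟨N, hN⟩ := exists_nat_ge (1 / ε)
  obtain ⟨J, hJ⟩ := Infinite.exists_subset_card_eq ι (2 * m + N + 1)
  set k := 2 * m + N + 1 with hk
  have hkr : (k : ℝ) = 2 * m + N + 1 := by rw [hk]; push_cast; ring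
  have hm0 : (0 : ℝ) ≤ m := Nat.cast_nonneg m
  have hN0 : (0 : ℝ) ≤ N := Nat.cast_nonneg N
  have hj : ((k - m : ℕ) : ℝ) = (k : ℝ) - m := by
    rw [Nat.cast_sub (by omega)]
  set W := {v : Places S | ∃ I : Finset ι, m ≤ I.card ∧ ∀ i ∈ I, ∀ a, ‖α i v a‖ = 1} with hW
  have hcond : (J.card : ℝ) * (1 + (1 / 3) ^ 2) < ((k - m : ℕ) : ℝ) * (3 + 1 / 3) ^ 2 := by
    rw [hJ, hj]
    nlinarith
  have key := many_upper h J (le_refl (1 : ℝ)) (s := 3) (l := 1 / 3) (by norm_num) (by norm_num) (j := k - m) hcond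
    (Z := Wᶜ) (fun v hv => by
      set T := J.filter fun i => ¬ Large 1 (α i v) with hT
      set L := J.filter fun i => Large 1 (α i v) with hL
      refine ⟨L, Finset.filter_subset _ _, ?_, fun i hi => (Finset.mem_filter.1 hi).2⟩
      have h1 : L.card + T.card = J.card := Finset.card_filter_add_card_filter_not _
      have h2 : T.card < m := by
        by_contra h3
        exact hv ⟨T, not_lt.1 h3, fun i hi => tempered_of (h.unitary i v) (Finset.mem_filter.1 hi).2⟩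
      rw [hJ] at h1
      omega)
  have hle : (J.card : ℝ) * (1 + (1 + 2 * (1 / 3)) ^ 2) / (J.card * (1 + (1 + 2 * (1 / 3)) ^ 2) +
      (((k - m : ℕ) : ℝ) * (3 + 1 / 3) ^ 2 - J.card * (1 + (1 / 3) ^ 2)) ^ 2) ≤ ε := by
    rw [hJ, hj]
    have hk1 : (1 : ℝ) ≤ k := by rw [hkr]; linarith
    have hkN : 1 / ε ≤ k := by rw [hkr]; linarith
    have h4 : 1 ≤ ε * k := by
      rw [div_le_iff₀ hε] at hkN
      linarith
    have h5 : 4 * (k : ℝ) ≤ ((k : ℝ) - m) * (3 + 1 / 3) ^ 2 - k * (1 + (1 / 3) ^ 2) := by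
      rw [hkr]
      nlinarith
    have h6 : (4 * (k : ℝ)) ^ 2 ≤ (((k : ℝ) - m) * (3 + 1 / 3) ^ 2 - k * (1 + (1 / 3) ^ 2)) ^ 2 :=
      pow_le_pow_left₀ (by positivity) h5 2
    rw [div_le_iff₀ (by positivity)]
    have h7 : ε * (4 * (k : ℝ)) ^ 2 ≤ ε * (((k : ℝ) - m) * (3 + 1 / 3) ^ 2 - k * (1 + (1 / 3) ^ 2)) ^ 2 :=
      mul_le_mul_of_nonneg_left h6 hε.le
    have h8 : (k : ℝ) * 16 ≤ ε * (4 * (k : ℝ)) ^ 2 := by nlinarith
    have h9 : 0 ≤ ε * ((k : ℝ) * (1 + (1 + 2 * (1 / 3)) ^ 2)) := by positivity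
    nlinarith
  have h2 := (key.mono hle).compl
  rwa [compl_compl] at h2

/-- **Two of the representations.** -/
theorem two_upper {ι : Type} {α : ι → Places S → Fin 2 → ℂ} (h : Family α) {i j : ι} (hij : i ≠ j) {r : ℝ}
    (hr : 1 ≤ r) {s D : ℝ} (hs : s = r ^ 2 + (r ^ 2)⁻¹ + 1) (hD : D = s ^ 2 + 1) :
    UpperLE {v : Places S | Large r (α i v) ∧ Large r (α j v)} (1 / D ^ 2) := by
  classical
  have hr2 : (1 : ℝ) ≤ r ^ 2 := one_le_pow₀ hr
  have hs3 : 3 ≤ s := by
    have := two_le_add_inv hr2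
    linarith
  have hD1 : 10 ≤ D := by nlinarith
  have hsum : ∀ l : ι, l = i ∨ l = j → ∀ x, ∑ p ∈ idx ({i, j} : Finset ι), cf D (fun m => if m = l then s ^ 2 + 2 * s else 0)
      (fun m => if m = l then s ^ 2 else 0) p * TT α p x = (s * U2 (α l) x + 1) ^ 2 := by
    intro l hl x
    rw [sum_cf, Finset.sum_pair hij]
    have hqe := q_eq (α l) s x
    rcases hl with rfl | rfl
    · rw [if_pos rfl, if_pos rfl, if_neg hij.symm, if_neg hij.symm]
      rw [hD]
      linarith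
    · rw [if_pos rfl, if_pos rfl, if_neg hij, if_neg hij]
      rw [hD]
      linarith
  have key := form_upper (idx ({i, j} : Finset ι)) (T := TT α) (fun a _ b _ => corr_all h a b)
    (cf D (fun m => if m = i then s ^ 2 + 2 * s else 0) (fun m => if m = i then s ^ 2 else 0))
    (cf D (fun m => if m = j then s ^ 2 + 2 * s else 0) (fun m => if m = j then s ^ 2 else 0))
    (fun x => by
      rw [hsum i (Or.inl rfl), hsum j (Or.inr rfl)]
      positivity) (A := D ^ 2 * D ^ 2) (by positivity)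
    (Z := {v : Places S | Large r (α i v) ∧ Large r (α j v)}) (fun v hv => by
      rw [hsum i (Or.inl rfl), hsum j (Or.inr rfl)]
      have hb : ∀ l : ι, Large r (α l v) → D ^ 2 ≤ (s * U2 (α l) (v, 0) + 1) ^ 2 := by
        intro l hl
        refine pow_le_pow_left₀ (by linarith) ?_ 2
        have h2 := large_U2 (h.unitary l) hr hl
        rw [← hs] at h2
        rw [hD]
        nlinarith
      exact mul_le_mul (hb i hv.1) (hb j hv.2) (by positivity) (by positivity))
  rw [sum_cfcf, Finset.sum_pair hij] at key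
  refine key.mono (le_of_eq ?_)
  simp only [if_true, if_neg hij, if_neg hij.symm]
  field_simp
  ring

end Pool.Agent.Hp428.FM
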